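import Pool.Agent.H12.OCS.MatA
import Pool.Agent.H66.OC.Dec
import Pool.Agent.H87.SLO.Gen

/-!
# Theorem OCS: row ACM

The activity of the velocity in the cells of the mates of a sample (given the data of the exact
point) persists when the time of the base and the label of the pair are added to the cells: these
have small information on the line, given the time of the mates. Decoupling along the depths
(`dec_sum`, helper66): Pinsker and the chain rule.
-/

set_option autoImplicit false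

namespace Pool.OCS.ACM92

open Finset Real
open Pool.Agent.H49.Ent Pool.Agent.H32.Dense Pool.STK Pool.KAF

section

variable {d : Dat} {A : ℕ}

theorem Qp_isLaw (hd : d.OK A) (j : ℕ) : IsLaw (d.Qp j) := by
  refine ⟨M12.Qp_nonneg hd j, ?_⟩
  have h := sum_glue (Z₁ := fun ω => (d.L ω, d.Ti j ω)) (Z₂ := fun ω => (d.L ω, d.Ti j ω))
    (p₂ := d.P) hd.law.nonneg (fun _ => rfl)
  exact h.trans hd.law.sum_one

/-- The information of the line on the time of the base, given the time of the mates. -/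
theorem info (hd : d.OK A) {j : ℕ} {ι : ℝ} (h1 : d.H1 ι) :
    Pool.KVA.MI (d.Qp j) (fun w => d.L w.1) (fun w => d.T w.1) (fun w => d.T w.2) ≤
      2 * (ι * d.X) := by
  have hp := hd.law
  have hq := Qp_isLaw hd j
  have ha : Pool.KVA.MI d.P d.L d.T (fun _ => ()) ≤ ι * d.X := by
    rw [Pool.OC.mi_comm _ _ _ hp.nonneg]
    exact h1.1
  have h3 : Pool.KVA.MI (d.Qp j) (fun w => d.L w.1) (fun w => (d.T w.1, d.T w.2))
      (fun _ => ()) ≤ 2 * (ι * d.X) :=
    Pool.OC.cost_pair hp d.L d.T (fun t => ⌊(2 : ℝ) ^ j * d.th t⌋) _ ha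
  refine le_trans (Pool.OC.mi_shift hq.nonneg (fun w => d.L w.1)
    (fun w => (d.T w.1, d.T w.2)) (fun w => d.T w.1) (fun _ => ()) (fun w => d.T w.2)
    (fun w w' _ _ h => ?_) (fun w w' _ _ _ => rfl)) h3
  have h4 : (d.T w.1, d.T w.2) = (d.T w'.1, d.T w'.2) := (Prod.ext_iff.1 h).1
  exact h4

/-- The cost of the decoupling. -/
theorem cost (hd : d.OK A) {j : ℕ} {ι : ℝ} (h1 : d.H1 ι) (c : d.Om × d.Om → ℤ)
    (hcX : ∀ w, |c w| ≤ 64 * d.X) (s t : ℕ) :
    CH (d.Qp j) (fun w => (d.T w.1, c w)) (fun w => d.GK s w.2) -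
      CH (d.Qp j) (fun w => (d.T w.1, c w)) (fun w => d.GK t w.2) ≤
        2 * (ι * d.X) + Real.log (256 * d.X + 1) := by
  have hq := Qp_isLaw hd j
  have hq0 := hq.nonneg
  have h2 : CH (d.Qp j) (fun w => (d.T w.1, c w)) (fun w => d.GK s w.2) =
      CH (d.Qp j) c (fun w => d.GK s w.2) +
        CH (d.Qp j) (fun w => d.T w.1) (fun w => (c w, d.GK s w.2)) := CH_chain hq0 _ _ _
  have h3 : CH (d.Qp j) c (fun w => d.GK s w.2) ≤ Real.log (256 * d.X + 1) := by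
    refine (CH_le_int hq0 hq.sum_one c (fun w => d.GK s w.2) (fun _ => 128 * d.X)
      (fun w w' _ _ _ => ?_)).trans (le_of_eq ?_)
    · have e1 := abs_le.1 (hcX w)
      have e2 := abs_le.1 (hcX w')
      have e3 : |c w - c w'| ≤ 128 * (d.X : ℤ) := by
        rw [abs_le]
        constructor <;> linarith [e1.1, e1.2, e2.1, e2.2]
      have e4 : ((|c w - c w'| : ℤ) : ℝ) ≤ ((128 * (d.X : ℤ) : ℤ) : ℝ) := by exact_mod_cast e3
      push_cast at e4 ⊢
      exact e4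
    · rw [Ex_const hq.sum_one]
      ring_nf
  have h4 : CH (d.Qp j) (fun w => d.T w.1) (fun w => (c w, d.GK s w.2)) ≤
      CH (d.Qp j) (fun w => d.T w.1) (fun w => d.T w.2) := by
    refine CH_mono_cond hq0 fun w w' _ _ h => ?_
    have e1 : d.GK s w.2 = d.GK s w'.2 := (Prod.ext_iff.1 h).2
    exact congrArg Prod.fst e1
  have h5 : CH (d.Qp j) (fun w => d.T w.1) (fun w => (d.L w.1, d.T w.2)) ≤
      CH (d.Qp j) (fun w => (d.T w.1, c w)) (fun w => d.GK t w.2) := by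
    have e1 : CH (d.Qp j) (fun w => d.T w.1) (fun w => (d.L w.1, d.T w.2)) ≤
        CH (d.Qp j) (fun w => d.T w.1) (fun w => d.GK t w.2) := by
      refine CH_mono_cond hq0 fun w w' hw hw' h => ?_
      have e2 : d.L w.1 = d.L w'.1 := (Prod.ext_iff.1 h).1
      have e3 : d.T w.2 = d.T w'.2 := (Prod.ext_iff.1 h).2
      have e4 : d.L w.1 = d.L w.2 := (Prod.ext_iff.1 (M12.Qp_pos hd hw).2.2).1
      have e5 : d.L w'.1 = d.L w'.2 := (Prod.ext_iff.1 (M12.Qp_pos hd hw').2.2).1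
      have e6 : d.L w.2 = d.L w'.2 := by rw [← e4, ← e5, e2]
      show d.GK t w.2 = d.GK t w'.2
      unfold Dat.GK
      rw [e3, e6]
    refine e1.trans (CH_mono_left hq0 fun w w' _ _ h => ?_)
    have e2 : (d.T w.1, c w) = (d.T w'.1, c w') := (Prod.ext_iff.1 h).1
    exact (Prod.ext_iff.1 e2).1
  have h6 := info hd (j := j) h1
  rw [Pool.OC.mi_comm _ _ _ hq0, Pool.CLU.MI_eq hq0] at h6
  linarith

end

theorem log_small {ι : ℝ} (hι : 0 < ι) :
    ∃ X₀ : ℕ, ∀ X : ℕ, X₀ ≤ X → Real.log (256 * X + 1) ≤ ι * X := by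
  have h := (Real.isLittleO_log_id_atTop.bound (c := ι / 257) (by positivity))
  obtain ⟨x₀, hx₀⟩ := Filter.eventually_atTop.1 h
  refine ⟨max ⌈x₀⌉₊ 1, fun X hX => ?_⟩
  have hX1 : (1 : ℝ) ≤ X := by exact_mod_cast (le_max_right _ _).trans hX
  have hX2 : x₀ ≤ X := (Nat.le_ceil x₀).trans (by exact_mod_cast (le_max_left _ _).trans hX)
  have h2 := hx₀ (256 * X + 1) (by linarith)
  have h3 : ‖id (256 * (X : ℝ) + 1)‖ = 256 * X + 1 := by
    rw [id, Real.norm_eq_abs, abs_of_pos (by positivity)]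
  rw [h3] at h2
  refine (le_abs_self _).trans (h2.trans ?_)
  have h4 : ι / 257 * (256 * X + 1) ≤ ι / 257 * (257 * X) :=
    mul_le_mul_of_nonneg_left (by linarith) (by positivity)
  refine h4.trans (le_of_eq ?_)
  field_simp

/-- **Row ACM.** -/
theorem acm_thm : ACMStmt := by
  classical
  intro b ε hε
  set ι : ℝ := ε ^ 2 / (12 * ((b : ℝ) + 2)) with hι
  have hι0 : 0 < ι := by positivity
  obtain ⟨X₀, hX₀⟩ := log_small hι0
  refine ⟨ι, X₀, hι0, ?_⟩
  intro d A n j c hd hX hn h1 hc hcX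
  have hq := Qp_isLaw hd j
  have hq0 := hq.nonneg
  set N : ℕ := d.X - 8 * n - 8 * n with hN
  set G : ℕ → d.Om × d.Om → d.Tau × ((Fin 2 → ℤ) × ℤ × ℤ) × ℤ :=
    fun s w => d.GK (8 * n + s) w.2 with hG
  set y : d.Om × d.Om → d.Tau × ℤ := fun w => (d.T w.1, c w) with hy
  set R : ℕ → d.Om × d.Om → Set (d.Tau × ((Fin 2 → ℤ) × ℤ × ℤ) × ℤ) :=
    fun s w => {g | 4 ≤ |g.2.2 - d.omd (8 * n + (s + (b + 2))) (d.L w.2) 0|} with hR
  set aS' : ℕ → d.Om × d.Om → ℝ := fun s w =>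
    Pr (Pool.Agent.H49.Ent.cond (d.Qp j) (G s) (G s w)) {w' | G (s + (b + 2)) w' ∈ R s w} with haS
  set aM' : ℕ → d.Om × d.Om → ℝ := fun s w =>
    Pr (Pool.Agent.H49.Ent.cond (d.Qp j) (fun u => (y u, G s u)) (y w, G s w))
      {w' | G (s + (b + 2)) w' ∈ R s w} with haM
  have hdet : ∀ s, Det (d.Qp j) (G (s + 1)) (G s) := by
    intro s w w' _ _ h
    have e1 : d.GK (8 * n + (s + 1)) w.2 = d.GK (8 * n + (s + 1)) w'.2 := h
    show d.GK (8 * n + s) w.2 = d.GK (8 * n + s) w'.2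
    unfold Dat.GK at e1 ⊢
    simp only [Prod.mk.injEq] at e1 ⊢
    refine ⟨e1.1, e1.2.1, ?_⟩
    have e2 := e1.2.2
    have e3 : ∀ x : ℝ, ⌊(2 : ℝ) ^ (8 * n + s) * x⌋ = ⌊(2 : ℝ) ^ (8 * n + (s + 1)) * x⌋ / 2 := by
      intro x
      have e4 : (2 : ℝ) ^ (8 * n + s) * x = ((2 : ℝ) ^ (8 * n + (s + 1)) * x) / ((2 : ℕ) : ℝ) := by
        rw [show 8 * n + (s + 1) = (8 * n + s) + 1 from by ring, pow_succ]
        push_cast
        ring
      rw [e4, Int.floor_div_natCast]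
      norm_num
    unfold Dat.omd at e2 ⊢
    rw [e3, e3, e2]
  -- the comparison of the activities
  have hS : ∀ s w, 0 < d.Qp j w → aS d b (8 * n + s) w.2 ≤ aS' s w := by
    intro s w hw
    have e1 := Pool.SLO.pr_cond_marg (M12.Qp_snd hd j) hq0 (G s) (d.GK (8 * n + s)) (w := w)
      (fun w' _ => Iff.rfl) {ω' | (2 : ℝ) ^ (-(((8 * n + s : ℕ) : ℤ) + b)) ≤
        |d.omR (d.L ω') 0 - d.omR (d.L w.2) 0|}
    have e0 : aS d b (8 * n + s) w.2 = Pr (Pool.Agent.H49.Ent.cond (d.Qp j) (G s) (G s w))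
        {w' | w'.2 ∈ {ω' | (2 : ℝ) ^ (-(((8 * n + s : ℕ) : ℤ) + b)) ≤
        |d.omR (d.L ω') 0 - d.omR (d.L w.2) 0|}} := e1.symm
    rw [e0]
    refine Pool.Mate.Pr_mono (cond_nonneg hq0 _ _) fun w' _ h => ?_
    have h2 : (2 : ℝ) ^ (-(((8 * n + s : ℕ) : ℤ) + b)) ≤
        |d.omR (d.L w'.2) 0 - d.omR (d.L w.2) 0| := h
    show 4 ≤ |d.omd (8 * n + (s + (b + 2))) (d.L w'.2) 0 -
      d.omd (8 * n + (s + (b + 2))) (d.L w.2) 0|
    unfold Dat.omd
    set M : ℝ := (2 : ℝ) ^ (8 * n + (s + (b + 2))) with hM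
    have hM0 : 0 < M := by positivity
    have h3 : 4 ≤ |M * d.omR (d.L w'.2) 0 - M * d.omR (d.L w.2) 0| := by
      rw [← mul_sub, abs_mul, abs_of_pos hM0]
      have e2 : M * (2 : ℝ) ^ (-(((8 * n + s : ℕ) : ℤ) + b)) = 4 := by
        rw [hM, ← zpow_natCast, ← zpow_add₀ (by norm_num)]
        have : ((8 * n + (s + (b + 2)) : ℕ) : ℤ) + -(((8 * n + s : ℕ) : ℤ) + b) = 2 := by
          push_cast
          ring
        rw [this]
        norm_num
      rw [← e2]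
      exact mul_le_mul_of_nonneg_left h2 hM0.le
    have f1 := Int.floor_le (M * d.omR (d.L w'.2) 0)
    have f2 := Int.lt_floor_add_one (M * d.omR (d.L w'.2) 0)
    have f3 := Int.floor_le (M * d.omR (d.L w.2) 0)
    have f4 := Int.lt_floor_add_one (M * d.omR (d.L w.2) 0)
    rcases le_abs.1 h3 with h4 | h4
    · have h5 : (3 : ℝ) < ((⌊M * d.omR (d.L w'.2) 0⌋ - ⌊M * d.omR (d.L w.2) 0⌋ : ℤ) : ℝ) := by
        push_cast
        linarith
      have h6 : 3 < ⌊M * d.omR (d.L w'.2) 0⌋ - ⌊M * d.omR (d.L w.2) 0⌋ := by exact_mod_cast h5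
      exact le_trans (by omega) (le_abs_self _)
    · have h5 : ((⌊M * d.omR (d.L w'.2) 0⌋ - ⌊M * d.omR (d.L w.2) 0⌋ : ℤ) : ℝ) < -3 := by
        push_cast
        linarith
      have h6 : ⌊M * d.omR (d.L w'.2) 0⌋ - ⌊M * d.omR (d.L w.2) 0⌋ < -3 := by exact_mod_cast h5
      exact le_trans (by omega) (neg_le_abs _)
  have hM : ∀ s w, s < N → 0 < d.Qp j w → aM' s w ≤ aM d c n j (b + 2) (8 * n + s) w := by
    intro s w hs hw
    have hLw : d.L w.1 = d.L w.2 := (Prod.ext_iff.1 (M12.Qp_pos hd hw).2.2).1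
    have hmax : max d.X (8 * n + s + 8 * n) = d.X := by
      apply max_eq_left
      omega
    have e1 := Pool.SLO.pr_cond_marg (Marg.id (d.Qp j)) hq0
      (fun u => (y u, G s u)) (d.GM c n (8 * n + s)) (w := w) (fun w' hw' => ?_)
      {w' | G (s + (b + 2)) w' ∈ R s w}
    · have e0 : aM' s w = Pr (Pool.Agent.H49.Ent.cond (d.Qp j) (d.GM c n (8 * n + s))
          (d.GM c n (8 * n + s) w)) {w' | G (s + (b + 2)) w' ∈ R s w} := e1
      rw [e0]
      refine Pool.Mate.Pr_mono (cond_nonneg hq0 _ _) fun w' hw' h => ?_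
      have hw'' : 0 < d.Qp j w' := ((cond_pos_iff hq0 _ _ _).1 hw').1
      have hLw' : d.L w'.1 = d.L w'.2 := (Prod.ext_iff.1 (M12.Qp_pos hd hw'').2.2).1
      have h2 : 4 ≤ |d.omd (8 * n + (s + (b + 2))) (d.L w'.2) 0 -
        d.omd (8 * n + (s + (b + 2))) (d.L w.2) 0| := h
      show (2 : ℝ) ^ (-(((8 * n + s : ℕ) : ℤ) + ((b + 2 : ℕ) : ℤ))) ≤
        |d.omR (d.L w'.1) 0 - d.omR (d.L w.1) 0|
      rw [hLw, hLw']
      unfold Dat.omd at h2
      set M : ℝ := (2 : ℝ) ^ (8 * n + (s + (b + 2))) with hM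
      have hM0 : 0 < M := by positivity
      have e3 : (2 : ℝ) ^ (-(((8 * n + s : ℕ) : ℤ) + ((b + 2 : ℕ) : ℤ))) = M⁻¹ := by
        rw [hM, ← zpow_natCast, ← zpow_neg]
        congr 1
        push_cast
        ring
      have e5 : M * |d.omR (d.L w'.2) 0 - d.omR (d.L w.2) 0| =
          |M * d.omR (d.L w'.2) 0 - M * d.omR (d.L w.2) 0| := by
        rw [← mul_sub, abs_mul, abs_of_pos hM0]
      rw [e3, inv_le_iff_one_le_mul₀ hM0, mul_comm, e5]
      have f1 := Int.floor_le (M * d.omR (d.L w'.2) 0)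
      have f2 := Int.lt_floor_add_one (M * d.omR (d.L w'.2) 0)
      have f3 := Int.floor_le (M * d.omR (d.L w.2) 0)
      have f4 := Int.lt_floor_add_one (M * d.omR (d.L w.2) 0)
      rcases le_abs.1 h2 with h4 | h4
      · have h5 : (4 : ℝ) ≤ ((⌊M * d.omR (d.L w'.2) 0⌋ - ⌊M * d.omR (d.L w.2) 0⌋ : ℤ) : ℝ) := by
          exact_mod_cast h4
        push_cast at h5
        exact le_trans (by linarith) (le_abs_self _)
      · have h5 : (4 : ℝ) ≤ ((-(⌊M * d.omR (d.L w'.2) 0⌋ - ⌊M * d.omR (d.L w.2) 0⌋) : ℤ) : ℝ) := by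
          exact_mod_cast h4
        push_cast at h5
        exact le_trans (by linarith) (neg_le_abs _)
    · have hLw' : d.L w'.1 = d.L w'.2 := (Prod.ext_iff.1 (M12.Qp_pos hd hw').2.2).1
      show ((d.T w'.1, c w'), d.GK (8 * n + s) w'.2) = ((d.T w.1, c w), d.GK (8 * n + s) w.2) ↔
        d.GM c n (8 * n + s) w' = d.GM c n (8 * n + s) w
      unfold Dat.GM Dat.GK
      rw [hmax, hLw, hLw']
      simp only [Prod.mk.injEq]
      tauto
  -- the decoupling
  have hcost : CH (d.Qp j) y (G 0) - CH (d.Qp j) y (G (N + (b + 2))) ≤ 3 * (ι * d.X) := by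
    have e1 := cost hd (j := j) h1 c hcX (8 * n + 0) (8 * n + (N + (b + 2)))
    have e2 := hX₀ d.X hX
    have e3 : CH (d.Qp j) y (G 0) - CH (d.Qp j) y (G (N + (b + 2))) ≤
        2 * (ι * d.X) + Real.log (256 * d.X + 1) := e1
    linarith
  have hdec := Pool.OC.dec_sum hq (γ := fun _ => d.Tau × ((Fin 2 → ℤ) × ℤ × ℤ) × ℤ) G y hdet N
    (b + 2) (fun s w => if aM' s w < aS' s w then 1 else 0)
    (fun s w => by split_ifs <;> norm_num) R hcost
  rw [Finset.sum_Ico_eq_sum_range]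
  have h2 : ∀ s ∈ range N, Ex (d.Qp j) (fun w => max 0 (aS d b (8 * n + s) w.2 -
      aM d c n j (b + 2) (8 * n + s) w)) ≤
      ∑ w, d.Qp j w * ((if aM' s w < aS' s w then 1 else 0) * aS' s w) -
      ∑ w, d.Qp j w * ((if aM' s w < aS' s w then 1 else 0) * aM' s w) := by
    intro s hs
    rw [← Finset.sum_sub_distrib]
    unfold Ex
    refine Finset.sum_le_sum fun w _ => ?_
    rcases (hq0 w).eq_or_lt with h0 | h0
    · rw [← h0]
      simp
    · rw [← mul_sub]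
      refine mul_le_mul_of_nonneg_left ?_ h0.le
      have e1 := hS s w h0
      have e2 := hM s w (Finset.mem_range.1 hs) h0
      by_cases h3 : aM' s w < aS' s w
      · rw [if_pos h3, one_mul, one_mul]
        exact max_le (by linarith) (by linarith)
      · rw [if_neg h3, zero_mul, zero_mul, sub_zero]
        push Not at h3
        exact max_le le_rfl (by linarith)
  refine (Finset.sum_le_sum h2).trans ?_
  rw [Finset.sum_sub_distrib]
  have h3 : 2 * Real.sqrt (N * (((b + 2 : ℕ) : ℝ) * (3 * (ι * d.X)))) ≤ ε * d.X := by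
    have e1 : (N : ℝ) * (((b + 2 : ℕ) : ℝ) * (3 * (ι * d.X))) ≤ (ε * d.X / 2) ^ 2 := by
      have e2 : (N : ℝ) ≤ d.X := by
        exact_mod_cast (by omega : N ≤ d.X)
      have e3 : ((b + 2 : ℕ) : ℝ) * (3 * (ι * d.X)) = ε ^ 2 / 4 * d.X := by
        rw [hι]
        push_cast
        field_simp
        ring
      rw [e3]
      have e4 : (0 : ℝ) ≤ ε ^ 2 / 4 * d.X := by positivity
      calc (N : ℝ) * (ε ^ 2 / 4 * d.X) ≤ d.X * (ε ^ 2 / 4 * d.X) :=
            mul_le_mul_of_nonneg_right e2 e4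
        _ = _ := by ring
    have e5 : Real.sqrt (N * (((b + 2 : ℕ) : ℝ) * (3 * (ι * d.X)))) ≤ ε * d.X / 2 :=
      Real.sqrt_le_iff.2 ⟨by positivity, e1⟩
    linarith
  have h4 : ∑ s ∈ range N, ∑ w, d.Qp j w * ((if aM' s w < aS' s w then (1 : ℝ) else 0) * aS' s w) ≤
      ∑ s ∈ range N, ∑ w, d.Qp j w * ((if aM' s w < aS' s w then (1 : ℝ) else 0) * aM' s w) +
      2 * Real.sqrt (N * (((b + 2 : ℕ) : ℝ) * (3 * (ι * d.X)))) := hdec
  linarith

end Pool.OCS.ACM92
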